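import Pool.Agent.H200W.Stm

/-! # Project WR: the node, emptiness. -/

set_option autoImplicit false

namespace Pool.Agent.Q149.WR

open Finset Pool.Agent.TH176.Nag Pool.Agent.TH603.Sur Pool.Agent.TH2.NU Pool.Agent.TH641.UM
open Pool.Agent.Y205.FW Pool.Agent.Y205.MD Pool.Agent.H200W Filter Topology

/-- integers slightly above a real number -/
theorem ev_floor (c z : ℝ) : ∀ᶠ ε in 𝓝[>] (0 : ℝ), ∀ k : ℤ, (k : ℝ) < c * (z + ε) → (k : ℝ) ≤ c * z := by
  have hc : Continuous fun ε : ℝ => c * (z + ε) := by fun_prop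
  have h0 : (fun ε : ℝ => c * (z + ε)) 0 < (⌊c * z⌋ : ℝ) + 1 := by
    simp only [add_zero]
    exact Int.lt_floor_add_one _
  have h1 : ∀ᶠ ε in 𝓝 (0 : ℝ), c * (z + ε) < (⌊c * z⌋ : ℝ) + 1 := hc.continuousAt.eventually (gt_mem_nhds h0)
  filter_upwards [mem_nhdsWithin_of_mem_nhds h1] with ε hε k hk
  have h2 : (k : ℝ) < (⌊c * z⌋ : ℝ) + 1 := hk.trans hε
  have h3 : k < ⌊c * z⌋ + 1 := by exact_mod_cast h2
  have h4 : k ≤ ⌊c * z⌋ := by omega
  have h5 : (k : ℝ) ≤ (⌊c * z⌋ : ℝ) := by exact_mod_cast h4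
  exact h5.trans (Int.floor_le _)

theorem nodeE : S_NodeE := by
  intro M B s y h hB hh hs hy hy1 hM
  have hs0 : 0 < s := by linarith
  have hy2 : 0 < 1 - y := by linarith
  obtain ⟨m, hm⟩ : ∃ m : ℕ → ℕ, ∀ j : ℕ, m j = ⌊B - 2 * s * j⌋₊ := ⟨_, fun _ => rfl⟩
  obtain ⟨L, hL⟩ : ∃ L : ℕ, L = ⌊min (h / 2) (B / (2 * s))⌋₊ + 1 := ⟨_, rfl⟩
  have hLiff : ∀ j : ℕ, j < L ↔ 2 * (j : ℝ) ≤ h ∧ 2 * s * j ≤ B := by
    intro j
    rw [hL, Nat.lt_add_one_iff, Nat.le_floor_iff (by positivity), le_min_iff, le_div_iff₀ (by positivity),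
      le_div_iff₀ (by positivity)]
    constructor
    · rintro ⟨a, b⟩
      constructor <;> linarith
    · rintro ⟨a, b⟩
      constructor <;> linarith
  have hup : ∀ j < L, (m j : ℝ) ≤ B - 2 * s * j := by
    intro j hj
    rw [hm]
    have := ((hLiff j).1 hj).2
    exact Nat.floor_le (by linarith)
  have hlo : ∀ j, B - 2 * s * j < (m j : ℝ) + 1 := by
    intro j
    rw [hm]
    exact Nat.lt_floor_add_one _
  have hstep : ∀ j, j + 1 < L → m (j + 1) + 3 ≤ m j := by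
    intro j hj
    have g2 := hup _ hj
    have g3 := hlo j
    push_cast at g2
    have g4 : ((m (j + 1) + 3 : ℕ) : ℝ) < (m j : ℝ) := by
      push_cast
      linarith
    exact (by exact_mod_cast g4 : m (j + 1) + 3 < m j).le
  -- the small number
  have hev : ∀ᶠ ε in 𝓝[>] (0 : ℝ), ∀ j ∈ Finset.range L, (∀ k : ℤ, (k : ℝ) < (1 - y) * (2 * (m j : ℝ) + ε) → (k : ℝ) ≤ (1 - y) * (2 * (m j : ℝ))) ∧
      ∀ k : ℤ, (k : ℝ) < y * (2 * (m j : ℝ) + ε) → (k : ℝ) ≤ y * (2 * (m j : ℝ)) := by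
    rw [Filter.eventually_all_finset]
    intro j _
    exact (ev_floor _ _).and (ev_floor _ _)
  obtain ⟨ε, hε, hε0⟩ := (hev.and self_mem_nhdsWithin).exists
  have hw : Emp (fun i : Fin M.toList.length => M.toList.get i) (WC (2 * B) (4 * s) y (h / 2)) := hM
  have key := Pool.Agent.Y665.FW.key (v := fun i : Fin M.toList.length => M.toList.get i) (a := 1 / (1 - y)) (b := 1 / y)
    (by positivity) (by positivity) (ω := fun W => 2 * W + ε) (by
      intro W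
      have hω : (0 : ℝ) < 2 * (W : ℝ) + ε := by positivity
      refine ⟨hω, ?_⟩
      have e1 : (2 * (W : ℝ) + ε) / (1 / (1 - y)) = (1 - y) * (2 * (W : ℝ) + ε) := by field_simp
      have e2 : (2 * (W : ℝ) + ε) / (1 / y) = y * (2 * (W : ℝ) + ε) := by field_simp
      rw [e1, e2]
      have g1 := Nat.le_ceil ((1 - y) * (2 * (W : ℝ) + ε))
      have g2 := Nat.le_ceil (y * (2 * (W : ℝ) + ε))
      have g3 : ((2 * W : ℕ) : ℝ) < ((⌈(1 - y) * (2 * (W : ℝ) + ε)⌉₊ + ⌈y * (2 * (W : ℝ) + ε)⌉₊ : ℕ) : ℝ) := by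
        push_cast
        linarith
      have g4 : 2 * W < ⌈(1 - y) * (2 * (W : ℝ) + ε)⌉₊ + ⌈y * (2 * (W : ℝ) + ε)⌉₊ := by exact_mod_cast g3
      omega) (m := m) (L := L) hstep (by
      refine hw.mono ?_
      rintro ⟨p, q⟩ ⟨h1, h2, h3, h4⟩
      simp only at h1 h2 h3 h4
      obtain ⟨j, rfl⟩ := Int.eq_ofNat_of_zero_le h1
      have hj : j < L := by exact_mod_cast h2
      simp only [Int.toNat_natCast] at h3 h4
      obtain ⟨e1, e2⟩ := hε j (Finset.mem_range.2 hj)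
      rw [one_div, inv_mul_lt_iff₀ hy2] at h3
      have h4' : ((-p : ℤ) : ℝ) < y * (2 * (m j : ℝ) + ε) := by
        have : -(1 / y * (p : ℝ)) = y⁻¹ * ((-p : ℤ) : ℝ) := by
          push_cast
          ring
        rw [this, inv_mul_lt_iff₀ hy] at h4
        exact h4
      have f1 := e1 p h3
      have f2 := e2 (-p) h4'
      push_cast at f2
      have hu := hup j hj
      have hb := (hLiff j).1 hj
      refine ⟨h1, ?_, ?_, ?_⟩
      · simp only
        push_cast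
        linarith [hb.1]
      · simp only
        push_cast
        have g5 : y * (2 * (m j : ℝ)) ≤ y * (2 * B - 4 * s * j) := mul_le_mul_of_nonneg_left (by linarith) hy.le
        linarith
      · simp only
        push_cast
        have g5 : (1 - y) * (2 * (m j : ℝ)) ≤ (1 - y) * (2 * B - 4 * s * j) := mul_le_mul_of_nonneg_left (by linarith) hy2.le
        linarith)
  show Emp (fun i : Fin M.toList.length => M.toList.get i) (TC B s h)
  refine key.mono ?_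
  rintro ⟨p, q⟩ ⟨h3, h4, h5, h6⟩
  simp only at h3 h4 h5 h6
  obtain ⟨q, rfl⟩ := Int.eq_ofNat_of_zero_le h4
  have hp0 : (0 : ℝ) ≤ p := by exact_mod_cast h3
  have e2 : (q : ℝ) = 2 * ((q / 2 : ℕ) : ℝ) + ((q % 2 : ℕ) : ℝ) := by
    have := Nat.div_add_mod q 2
    exact_mod_cast this.symm
  rw [Int.cast_natCast, e2] at h5 h6
  have hr0 : (0 : ℝ) ≤ ((q % 2 : ℕ) : ℝ) := Nat.cast_nonneg _
  have hsr : 0 ≤ s * ((q % 2 : ℕ) : ℝ) := by positivity
  have hjL : q / 2 < L := (hLiff _).2 ⟨by linarith, by linarith⟩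
  have g3 := hlo (q / 2)
  have e1 : ((q : ℤ) / 2).toNat = q / 2 := by omega
  refine ⟨h3, h4, by simp only; omega, ?_⟩
  simp only
  rw [e1]
  have g : p + 2 * ((q : ℤ) % 2) < ((m (q / 2) : ℕ) : ℤ) + 1 := by
    have g0 : (p : ℝ) + 2 * ((q % 2 : ℕ) : ℝ) < (m (q / 2) : ℝ) + 1 := by
      have : 2 * ((q % 2 : ℕ) : ℝ) ≤ s * ((q % 2 : ℕ) : ℝ) := mul_le_mul_of_nonneg_right hs hr0
      linarith
    have g2 : ((q : ℤ) % 2) = ((q % 2 : ℕ) : ℤ) := by push_cast; rfl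
    rw [g2]
    have g5 : ((p + 2 * ((q % 2 : ℕ) : ℤ) : ℤ) : ℝ) < ((((m (q / 2) : ℕ) : ℤ) + 1 : ℤ) : ℝ) := by
      simp only [Int.cast_add, Int.cast_mul, Int.cast_natCast, Int.cast_ofNat, Int.cast_one]
      exact g0
    exact Int.cast_lt.1 g5
  omega

end Pool.Agent.Q149.WR
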