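import Pool.Agent.H200W.Stm

/-! # Project WR: the node, independence. -/

set_option autoImplicit false

namespace Pool.Agent.Q149.WR

open Finset Pool.Agent.TH176.Nag Pool.Agent.TH603.Sur Pool.Agent.TH2.NU Pool.Agent.TH641.UM
open Pool.Agent.Y205.FW Pool.Agent.Y205.MD Pool.Agent.H200W Filter Topology

theorem stSeq : StSeq := Pool.Agent.Y100.FW.seq Pool.Agent.Y665.FW.key

theorem WO_finite {T s y h : ℝ} (hs : 0 ≤ s) (hy : 0 < y) (hy1 : y < 1) : (WO T s y h).Finite := by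
  refine (Set.finite_Icc ((-⌈|T|⌉, 0) : ℤ × ℤ) (⌈|T|⌉, ⌈|h|⌉)).subset ?_
  rintro ⟨p, q⟩ ⟨h1, h2, h3, h4⟩
  simp only at h1 h2 h3 h4
  have hq0 : (0 : ℝ) < q := by exact_mod_cast h1
  have hsq : 0 ≤ s * q := by positivity
  have hle : T - s * q ≤ |T| := by have := le_abs_self T; linarith
  have hpos : 0 < T - s * q := by linarith
  have b1 : (1 - y) * (T - s * q) ≤ |T| := by nlinarith
  have b2 : y * (T - s * q) ≤ |T| := by nlinarith
  have c1 : (p : ℝ) ≤ (⌈|T|⌉ : ℝ) := (h4.le.trans b1).trans (Int.le_ceil _)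
  have c2 : -(⌈|T|⌉ : ℝ) ≤ (p : ℝ) := by
    have := Int.le_ceil |T|
    linarith
  have c3 : (q : ℝ) ≤ (⌈|h|⌉ : ℝ) := (h2.le.trans (le_abs_self h)).trans (Int.le_ceil _)
  refine ⟨⟨?_, h1.le⟩, ⟨by exact_mod_cast c1, by exact_mod_cast c3⟩⟩
  show -⌈|T|⌉ ≤ p
  exact_mod_cast c2

theorem exists_x {T s y h : ℝ} (hs : 0 ≤ s) (hy : 0 < y) (hy1 : y < 1) :
    ∃ x : ℝ, 0 < x ∧ x + y ≤ 1 ∧ Irrational (x / y) ∧ ∀ p ∈ WO T s y h, (p.1 : ℝ) < x * (T - s * p.2) := by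
  have hfin := WO_finite (T := T) (h := h) hs hy hy1
  have hev : ∀ᶠ x in 𝓝 (1 - y), 0 < x ∧ ∀ p ∈ WO T s y h, (p.1 : ℝ) < x * (T - s * p.2) := by
    refine (eventually_gt_nhds (by linarith)).and ((Filter.eventually_all_finite hfin).2 fun p hp => ?_)
    have hc : Continuous fun x : ℝ => x * (T - s * p.2) := by fun_prop
    exact hc.continuousAt.eventually (lt_mem_nhds hp.2.2.2)
  obtain ⟨l, hl, hsub⟩ := exists_Ioc_subset_of_mem_nhds hev ⟨1 - y - 1, by linarith⟩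
  obtain ⟨r, hr, hr1, hr2⟩ := exists_irrational_btwn (show l / y < (1 - y) / y by gcongr)
  rw [div_lt_iff₀ hy] at hr1
  rw [lt_div_iff₀ hy] at hr2
  obtain ⟨g1, g2⟩ := hsub ⟨hr1, hr2.le⟩
  refine ⟨r * y, g1, by linarith, ?_, g2⟩
  rwa [mul_div_assoc, div_self hy.ne', mul_one]

theorem nodeS : S_NodeS := by
  intro M B s y h hh hs hy hy1 hM
  have hs0 : 0 < s := by linarith
  obtain ⟨x, hx0, hxy, hirr, hx⟩ := exists_x (T := 2 * B - 1) (s := 4 * s) (h := h / 2) (by linarith) hy hy1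
  obtain ⟨m, hm⟩ : ∃ m : ℕ → ℕ, ∀ j : ℕ, m j = ⌈B - 2 * s * (j + 1)⌉₊ := ⟨_, fun _ => rfl⟩
  obtain ⟨L, hL⟩ : ∃ L : ℕ, L = ⌈min (h / 2) ((2 * B - 1) / (4 * s))⌉₊ - 1 := ⟨_, rfl⟩
  have hLiff : ∀ j : ℕ, j < L ↔ 2 * ((j : ℝ) + 1) < h ∧ 4 * s * (j + 1) < 2 * B - 1 := by
    intro j
    have e : j < L ↔ j + 1 < ⌈min (h / 2) ((2 * B - 1) / (4 * s))⌉₊ := by omega
    rw [e, Nat.lt_ceil, lt_min_iff, lt_div_iff₀ (by positivity), lt_div_iff₀ (by positivity)]
    push_cast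
    constructor
    · rintro ⟨a, b⟩
      constructor <;> linarith
    · rintro ⟨a, b⟩
      constructor <;> linarith
  have hm1 : ∀ j < L, 1 ≤ m j := by
    intro j hj
    rw [hm]
    have := ((hLiff j).1 hj).2
    exact Nat.ceil_pos.2 (by linarith)
  have hup : ∀ j < L, (m j : ℝ) < B - 2 * s * (j + 1) + 1 := by
    intro j hj
    rw [hm]
    have := ((hLiff j).1 hj).2
    exact Nat.ceil_lt_add_one (by linarith)
  have hlo : ∀ j, B - 2 * s * (j + 1) ≤ (m j : ℝ) := by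
    intro j
    rw [hm]
    exact Nat.le_ceil _
  have hstep : ∀ j, j + 1 < L → m (j + 1) + 3 ≤ m j := by
    intro j hj
    have g2 := hup _ hj
    have g3 := hlo j
    push_cast at g2
    have g4 : ((m (j + 1) + 3 : ℕ) : ℝ) < (m j : ℝ) := by
      push_cast
      linarith
    exact (by exact_mod_cast g4 : m (j + 1) + 3 < m j).le
  have hw : Sur (fun i : Fin M.toList.length => M.toList.get i) (WO (2 * B - 1) (4 * s) y (h / 2)) := hM
  have key := stSeq (w := fun i : Fin M.toList.length => M.toList.get i) (m := m) (L := L) hstep hm1 hx0 hy hxy hirr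
    (by
      refine hw.comap 1 0 0 1 0 1 (by norm_num) ?_
      rintro ⟨p, q⟩ hpq
      have hx' := hx _ hpq
      obtain ⟨h1, h2, h3, h4⟩ := hpq
      simp only at h1 h2 h3 h4 hx'
      obtain ⟨j, rfl⟩ : ∃ j : ℕ, q = (j : ℤ) + 1 := ⟨(q - 1).toNat, by omega⟩
      push_cast at h2 h3 h4 hx'
      have hlen : 0 < 2 * B - 1 - 4 * s * ((j : ℝ) + 1) := by linarith
      have hj : j < L := (hLiff j).2 ⟨by linarith, by linarith⟩
      have g := hlo j
      refine ⟨(p, (j : ℤ)), ⟨by simp, by simp only; exact_mod_cast hj, ?_, ?_⟩, by simp⟩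
      · simp only [Int.toNat_natCast]
        have g5 : y * (2 * B - 1 - 4 * s * ((j : ℝ) + 1)) ≤ y * (2 * (m j : ℝ) - 1) :=
          mul_le_mul_of_nonneg_left (by linarith) hy.le
        linarith
      · simp only [Int.toNat_natCast]
        have g5 : x * (2 * B - 1 - 4 * s * ((j : ℝ) + 1)) ≤ x * (2 * (m j : ℝ) - 1) :=
          mul_le_mul_of_nonneg_left (by linarith) hx0.le
        linarith)
  show Sur (fun i : Fin M.toList.length => M.toList.get i) (TO B s h)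
  refine key.comap 1 0 0 1 (-1) (-1) (by norm_num) ?_
  rintro ⟨p, q⟩ ⟨h3, h4, h5, h6⟩
  simp only at h3 h4 h5 h6
  obtain ⟨q, rfl⟩ := Int.eq_ofNat_of_zero_le h4
  have hjL : q / 2 < L := by omega
  have hj := (hLiff _).1 hjL
  have g2 := hup _ hjL
  have e1 : ((q : ℤ) / 2).toNat = q / 2 := by omega
  rw [e1] at h6
  have h6' : (p : ℝ) + 2 * (((q % 2 : ℕ)) : ℝ) ≤ (m (q / 2) : ℝ) := by
    have g0 : p + 2 * ((q : ℤ) % 2) ≤ ((m (q / 2) : ℕ) : ℤ) := h6
    have g1 : ((p + 2 * ((q : ℤ) % 2) : ℤ) : ℝ) ≤ (((m (q / 2) : ℕ) : ℤ) : ℝ) := by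
      exact_mod_cast g0
    have g2 : ((q : ℤ) % 2) = ((q % 2 : ℕ) : ℤ) := by push_cast; rfl
    rw [g2] at g1
    push_cast at g1 ⊢
    exact g1
  have e2 : (q : ℝ) = 2 * ((q / 2 : ℕ) : ℝ) + ((q % 2 : ℕ) : ℝ) := by
    have := Nat.div_add_mod q 2
    exact_mod_cast this.symm
  refine ⟨(p + 1, (q : ℤ) + 1), ⟨by simp only; omega, by simp only; omega, ?_, ?_⟩, by simp⟩
  · simp only
    push_cast
    rw [e2]
    rcases Nat.mod_two_eq_zero_or_one q with h7 | h7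
    · rw [h7]
      push_cast
      linarith [hj.1]
    · rw [h7]
      push_cast
      linarith [hj.1]
  · simp only
    push_cast
    rw [e2]
    rcases Nat.mod_two_eq_zero_or_one q with h7 | h7
    · rw [h7] at h6' ⊢
      push_cast at h6' ⊢
      linarith
    · rw [h7] at h6' ⊢
      push_cast at h6' ⊢
      linarith

end Pool.Agent.Q149.WR
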